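import Mathlib
import Pool.Agent.Q128.OhbaD

/-!
# The order of growth of the generalized Ohba numbers `τ_s(a, b)`

For every `s` and every fixed `a ≥ s + 2`, `τ_s(a, b) = Θ(b ^ (1 / (2 s + 2)))` as `b → ∞`.
-/

set_option autoImplicit false

namespace Pool.Agent.Results.MP_abf9c7_co.Theta

open Filter Asymptotics SimpleGraph

/-- `G` is `k`-choosable: whenever every vertex gets a list of `k` colours, there is a proper
colouring choosing the colour of every vertex from its list. -/
def Choosable {V : Type} (G : SimpleGraph V) (k : ℕ) : Prop :=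
  ∀ L : V → Finset ℕ, (∀ v, (L v).card = k) →
    ∃ f : V → ℕ, (∀ v, f v ∈ L v) ∧ ∀ v w, G.Adj v w → f v ≠ f w

/-- The list chromatic number (choice number). -/
noncomputable def listChromatic {V : Type} (G : SimpleGraph V) : ℕ := sInf {k | Choosable G k}

/-- The join of two graphs: every vertex of `G` is adjacent to every vertex of `H`. -/
def join {V W : Type} (G : SimpleGraph V) (H : SimpleGraph W) : SimpleGraph (V ⊕ W) where
  Adj x y :=
    match x, y with
    | Sum.inl v, Sum.inl v' => G.Adj v v'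
    | Sum.inr w, Sum.inr w' => H.Adj w w'
    | Sum.inl _, Sum.inr _ => True
    | Sum.inr _, Sum.inl _ => True
  symm := ⟨by
    rintro (x | x) (y | y) h
    · exact G.symm.symm _ _ h
    · trivial
    · trivial
    · exact H.symm.symm _ _ h⟩
  loopless := ⟨by
    rintro (x | x) h
    · exact G.loopless.irrefl _ h
    · exact H.loopless.irrefl _ h⟩

/-- The graph `K_t ∨ K_{a,b}`. -/
def KK (t a b : ℕ) : SimpleGraph (Fin t ⊕ (Fin a ⊕ Fin b)) :=
  join (⊤ : SimpleGraph (Fin t)) (completeBipartiteGraph (Fin a) (Fin b))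

/-- The set of the `t ≥ 0` with `χ_ℓ(K_t ∨ K_{a,b}) - χ(K_t ∨ K_{a,b}) ≤ s`. -/
def ohbaSet (s a b : ℕ) : Set ℕ :=
  {t : ℕ | (listChromatic (KK t a b) : ℕ∞) ≤ (KK t a b).chromaticNumber + (s : ℕ∞)}

/-- The generalized Ohba number `τ_s(a, b)`, the least element of `ohbaSet s a b`. -/
noncomputable def tau (s a b : ℕ) : ℕ := sInf (ohbaSet s a b)

/-! ### Choosability -/

theorem choosable_mono {V : Type} (G : SimpleGraph V) {k l : ℕ} (h : Choosable G k) (hkl : k ≤ l) :
    Choosable G l := by
  intro L hL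
  have h1 : ∀ v, ∃ M : Finset ℕ, M ⊆ L v ∧ M.card = k := fun v =>
    Finset.exists_subset_card_eq (by rw [hL v]; exact hkl)
  choose M hM1 hM2 using h1
  obtain ⟨f, hf1, hf2⟩ := h M hM2
  exact ⟨f, fun v => hM1 v (hf1 v), hf2⟩

theorem choosable_card {V : Type} [Fintype V] (G : SimpleGraph V) :
    Choosable G (Fintype.card V) := by
  classical
  intro L hL
  have h1 : ∀ s : Finset V, s.card ≤ (s.biUnion L).card := by
    intro s
    rcases s.eq_empty_or_nonempty with rfl | ⟨v, hv⟩
    · simp
    · calc s.card ≤ Fintype.card V := Finset.card_le_univ s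
        _ = (L v).card := (hL v).symm
        _ ≤ _ := Finset.card_le_card (Finset.subset_biUnion_of_mem L hv)
  obtain ⟨f, hf1, hf2⟩ := (Finset.all_card_le_biUnion_card_iff_exists_injective L).1 h1
  exact ⟨f, hf2, fun v w hvw h => hvw.ne (hf1 h)⟩

theorem listChromatic_le_iff {V : Type} [Fintype V] (G : SimpleGraph V) (k : ℕ) :
    listChromatic G ≤ k ↔ Choosable G k := by
  constructor
  · intro h
    have : Choosable G (listChromatic G) := Nat.sInf_mem (s := {k | Choosable G k})
      ⟨_, choosable_card G⟩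
    exact choosable_mono G this h
  · intro h
    exact Nat.sInf_le h

/-! ### The chromatic number -/

theorem chromaticNumber_KK (t a b : ℕ) (ha : 1 ≤ a) (hb : 1 ≤ b) :
    (KK t a b).chromaticNumber = ((t + 2 : ℕ) : ℕ∞) := by
  apply le_antisymm
  · apply SimpleGraph.Colorable.chromaticNumber_le
    refine ⟨SimpleGraph.Coloring.mk (fun v => match v with
      | Sum.inl i => (⟨i.1, by omega⟩ : Fin (t + 2))
      | Sum.inr (Sum.inl _) => ⟨t, by omega⟩
      | Sum.inr (Sum.inr _) => ⟨t + 1, by omega⟩) ?_⟩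
    rintro (i | (x | y)) (i' | (x' | y')) h
    · have : i ≠ i' := h
      intro he
      exact this (Fin.ext (by simpa using he))
    · intro he
      have := congrArg Fin.val he
      simp only at this
      have := i.2
      omega
    · intro he
      have := congrArg Fin.val he
      simp only at this
      have := i.2
      omega
    · intro he
      have := congrArg Fin.val he
      simp only at this
      have := i'.2
      omega
    · exfalso
      have h' : (completeBipartiteGraph (Fin a) (Fin b)).Adj (Sum.inl x) (Sum.inl x') := h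
      simp at h'
    · intro he
      have := congrArg Fin.val he
      simp only at this
      omega
    · intro he
      have := congrArg Fin.val he
      simp only at this
      have := i'.2
      omega
    · intro he
      have := congrArg Fin.val he
      simp only at this
      omega
    · exfalso
      have h' : (completeBipartiteGraph (Fin a) (Fin b)).Adj (Sum.inr y) (Sum.inr y') := h
      simp at h'
  · have hhom : (⊤ : SimpleGraph (Fin t ⊕ Bool)) →g KK t a b := by
      refine ⟨fun v => match v with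
        | Sum.inl i => Sum.inl i
        | Sum.inr true => Sum.inr (Sum.inl ⟨0, by omega⟩)
        | Sum.inr false => Sum.inr (Sum.inr ⟨0, by omega⟩), ?_⟩
      rintro (i | (_ | _)) (i' | (_ | _)) h
      · have h' : i ≠ i' := by
          rintro rfl
          exact h rfl
        exact h'
      · trivial
      · trivial
      · trivial
      · exact absurd rfl h
      · change (completeBipartiteGraph (Fin a) (Fin b)).Adj (Sum.inr _) (Sum.inl _)
        simp
      · trivial
      · change (completeBipartiteGraph (Fin a) (Fin b)).Adj (Sum.inl _) (Sum.inr _)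
        simp
      · exact absurd rfl h
    have := chromaticNumber_mono_of_hom hhom
    rw [chromaticNumber_top] at this
    simpa using this

theorem mem_ohbaSet (s a b t : ℕ) (ha : 1 ≤ a) (hb : 1 ≤ b) :
    t ∈ ohbaSet s a b ↔ Choosable (KK t a b) (t + s + 2) := by
  unfold ohbaSet
  rw [Set.mem_ofPred_eq, chromaticNumber_KK t a b ha hb, ← listChromatic_le_iff]
  rw [← Nat.cast_add, Nat.cast_le]
  constructor <;> intro h <;> omega

/-! ### The upper bound -/

theorem choosable_upper (s a : ℕ) (ha : 2 ≤ a) :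
    ∃ (D : ℝ) (t0 : ℕ), 1 ≤ D ∧ ∀ t b : ℕ, t0 ≤ t → D * b ≤ (t : ℝ) ^ (2 * (s + 1)) →
      Choosable (KK t a b) (t + s + 2) := by
  obtain ⟨D, t0, hD, h⟩ := Q128.Ohba.upper a (s + 1) ha
  refine ⟨D, t0, hD, ?_⟩
  intro t b ht hb L hL
  obtain ⟨c, d, hc1, hc2, hd1, hd2, hS⟩ := h t b ht hb (fun i => L (Sum.inl i))
    (fun x => L (Sum.inr (Sum.inl x))) (fun y => L (Sum.inr (Sum.inr y)))
    (fun i => by rw [hL]; omega) (fun x => by rw [hL]; omega) (fun y => by rw [hL]; omega)
  have hS' : ∀ y, ∃ z ∈ L (Sum.inr (Sum.inr y)), (∀ x, z ≠ d x) ∧ ∀ i, z ≠ c i := by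
    intro y
    have := hS y
    rw [Finset.not_subset] at this
    obtain ⟨z, hz1, hz2⟩ := this
    refine ⟨z, hz1, fun x hx => hz2 ?_, fun i hi => hz2 ?_⟩
    · rw [hx]
      exact Finset.mem_union_left _ (Finset.mem_image_of_mem _ (Finset.mem_univ x))
    · rw [hi]
      exact Finset.mem_union_right _ (Finset.mem_image_of_mem _ (Finset.mem_univ i))
  choose e he1 he2 he3 using hS'
  refine ⟨fun v => match v with
    | Sum.inl i => c i
    | Sum.inr (Sum.inl x) => d x
    | Sum.inr (Sum.inr y) => e y, ?_, ?_⟩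
  · rintro (i | (x | y))
    · exact hc1 i
    · exact hd1 x
    · exact he1 y
  · rintro (i | (x | y)) (i' | (x' | y')) h
    · have h' : i ≠ i' := h
      exact fun he => h' (hc2 he)
    · exact (hd2 x' i).symm
    · exact (he3 y' i).symm
    · exact hd2 x i'
    · exfalso
      have h' : (completeBipartiteGraph (Fin a) (Fin b)).Adj (Sum.inl x) (Sum.inl x') := h
      simp at h'
    · exact (he2 y' x).symm
    · exact he3 y i'
    · exact he2 y x'
    · exfalso
      have h' : (completeBipartiteGraph (Fin a) (Fin b)).Adj (Sum.inr y) (Sum.inr y') := h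
      simp at h'

/-! ### The lower bound -/

/-- indices of the vertices of the large part -/
abbrev Idx (k s : ℕ) : Type :=
  (Finset.powersetCard (k - s - 1) (Finset.range k)) × (Fin (s + 1) → Fin k)

/-- the list of the vertex of the large part with index `(T, y)` -/
def bigList (k s : ℕ) (n : Idx k s) : Finset ℕ :=
  n.1.1 ∪ Finset.univ.image (fun m : Fin (s + 1) => k * (m.1 + 1) + (n.2 m).1)

theorem bigList_card (k s : ℕ) (hks : s + 1 ≤ k)
    (n : Idx k s) : (bigList k s n).card = k := by
  obtain ⟨⟨T, hT⟩, y⟩ := n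
  obtain ⟨hT1, hT2⟩ := Finset.mem_powersetCard.1 hT
  unfold bigList
  rw [Finset.card_union_of_disjoint]
  · rw [Finset.card_image_of_injective, Finset.card_univ, Fintype.card_fin]
    · simp only
      omega
    · intro m m' h
      simp only at h
      have h1 := (y m).2
      have h2 := (y m').2
      apply Fin.ext
      have e1 : (k * (m.1 + 1) + (y m).1) / k = m.1 + 1 := by
        rw [Nat.mul_add_div (by omega), Nat.div_eq_of_lt h1]
      have e2 : (k * (m'.1 + 1) + (y m').1) / k = m'.1 + 1 := by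
        rw [Nat.mul_add_div (by omega), Nat.div_eq_of_lt h2]
      rw [h, e2] at e1
      omega
  · rw [Finset.disjoint_left]
    intro z hz hz'
    have h1 := Finset.mem_range.1 (hT1 hz)
    obtain ⟨m, _, rfl⟩ := Finset.mem_image.1 hz'
    have : k ≤ k * (m.1 + 1) := Nat.le_mul_of_pos_right k (by omega)
    omega

theorem not_choosable_lower (s a b t : ℕ) (ha : s + 2 ≤ a)
    (hb : (t + s + 2) ^ (2 * (s + 1)) ≤ b) : ¬ Choosable (KK t a b) (t + s + 2) := by
  classical
  intro hch
  set k := t + s + 2 with hk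
  -- enumeration of the lists
  have hNcard : Fintype.card (Idx k s) ≤ Fintype.card (Fin b) := by
    rw [Fintype.card_prod, Fintype.card_coe, Finset.card_powersetCard, Finset.card_range,
      Fintype.card_fun, Fintype.card_fin, Fintype.card_fin, Fintype.card_fin]
    refine le_trans ?_ hb
    have h1 : k.choose (k - s - 1) = k.choose (s + 1) := by
      rw [← Nat.choose_symm (by omega : s + 1 ≤ k)]
      congr 1
    rw [h1]
    calc k.choose (s + 1) * k ^ (s + 1) ≤ k ^ (s + 1) * k ^ (s + 1) :=
          Nat.mul_le_mul_right _ (Nat.choose_le_pow _ _)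
      _ = k ^ (2 * (s + 1)) := by ring
  obtain ⟨emb⟩ := Function.Embedding.nonempty_of_card_le hNcard
  have : Nonempty (Idx k s) := by
    refine ⟨⟨⟨Finset.range (k - s - 1), Finset.mem_powersetCard.2 ⟨?_, ?_⟩⟩,
      fun _ => ⟨0, by omega⟩⟩⟩
    · intro z hz
      rw [Finset.mem_range] at hz ⊢
      omega
    · rw [Finset.card_range]
  obtain ⟨f, hf1, hf2⟩ := hch (fun v => match v with
    | Sum.inl _ => Finset.range k
    | Sum.inr (Sum.inl x) => Finset.Ico (k * x.1) (k * x.1 + k)
    | Sum.inr (Sum.inr y) => bigList k s (Function.invFun emb y)) (by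
      rintro (i | (x | y))
      · simp
      · simp
      · exact bigList_card k s (by omega) _)
  have hf1a : ∀ i, f (Sum.inl i) ∈ Finset.range k := fun i => hf1 (Sum.inl i)
  have hf1b : ∀ x : Fin a, f (Sum.inr (Sum.inl x)) ∈ Finset.Ico (k * x.1) (k * x.1 + k) :=
    fun x => hf1 (Sum.inr (Sum.inl x))
  have hf1c : ∀ y, f (Sum.inr (Sum.inr y)) ∈ bigList k s (Function.invFun emb y) :=
    fun y => hf1 (Sum.inr (Sum.inr y))
  set x0 : Fin a := ⟨0, by omega⟩ with hx0
  -- the set of the used colours in the first block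
  set T : Finset ℕ := insert (f (Sum.inr (Sum.inl x0)))
    (Finset.univ.image (fun i : Fin t => f (Sum.inl i))) with hT
  have hinj : Function.Injective (fun i : Fin t => f (Sum.inl i)) := by
    intro i i' h
    by_contra hne
    exact hf2 (Sum.inl i) (Sum.inl i') (by exact hne) h
  have hTcard : T.card = k - s - 1 := by
    rw [hT, Finset.card_insert_of_notMem, Finset.card_image_of_injective _ hinj, Finset.card_univ,
      Fintype.card_fin]
    · omega
    · intro h
      obtain ⟨i, _, hi⟩ := Finset.mem_image.1 h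
      exact hf2 (Sum.inl i) (Sum.inr (Sum.inl x0)) trivial hi
  have hTsub : T ⊆ Finset.range k := by
    intro z hz
    rcases Finset.mem_insert.1 hz with rfl | hz
    · have := hf1b x0
      have h0 : x0.1 = 0 := rfl
      rw [h0] at this
      simpa using this
    · obtain ⟨i, _, rfl⟩ := Finset.mem_image.1 hz
      exact hf1a i
  set y : Fin (s + 1) → Fin k := fun m =>
    ⟨f (Sum.inr (Sum.inl (⟨m.1 + 1, by omega⟩ : Fin a))) - k * (m.1 + 1), by
      have h1 := Finset.mem_Ico.1 (hf1b ⟨m.1 + 1, by omega⟩)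
      simp only at h1
      omega⟩ with hy
  set n : Idx k s := ⟨⟨T, Finset.mem_powersetCard.2 ⟨hTsub, hTcard⟩⟩, y⟩ with hn
  have hinv : Function.invFun emb (emb n) = n := Function.leftInverse_invFun emb.injective n
  have hmem := hf1c (emb n)
  rw [hinv] at hmem
  unfold bigList at hmem
  rcases Finset.mem_union.1 hmem with h | h
  · rcases Finset.mem_insert.1 h with h | h
    · refine hf2 (Sum.inr (Sum.inl x0)) (Sum.inr (Sum.inr (emb n))) ?_ h.symm
      change (completeBipartiteGraph (Fin a) (Fin b)).Adj (Sum.inl _) (Sum.inr _)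
      simp
    · obtain ⟨i, _, hi⟩ := Finset.mem_image.1 h
      exact hf2 (Sum.inl i) (Sum.inr (Sum.inr (emb n))) trivial hi
  · obtain ⟨m, _, hm⟩ := Finset.mem_image.1 h
    have h1 := Finset.mem_Ico.1 (hf1b ⟨m.1 + 1, by omega⟩)
    simp only at h1
    refine hf2 (Sum.inr (Sum.inl (⟨m.1 + 1, by omega⟩ : Fin a)))
      (Sum.inr (Sum.inr (emb n))) ?_ ?_
    · change (completeBipartiteGraph (Fin a) (Fin b)).Adj (Sum.inl _) (Sum.inr _)
      simp
    · rw [← hm]
      simp only [hn, hy]
      omega

/-! ### The theorem -/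

theorem ohbaSet_nonempty (s a b : ℕ) (ha : 2 ≤ a) (hb : 1 ≤ b) : (ohbaSet s a b).Nonempty := by
  obtain ⟨D, t0, hD, h⟩ := choosable_upper s a ha
  obtain ⟨t, ht⟩ := exists_nat_ge (D * b)
  refine ⟨max (t + 1) t0, (mem_ohbaSet s a b _ (by omega) hb).2 (h _ b (le_max_right _ _) ?_)⟩
  have h1 : (t : ℝ) ≤ ((max (t + 1) t0 : ℕ) : ℝ) := by
    have : t ≤ max (t + 1) t0 := le_trans (by omega) (le_max_left _ _)
    exact_mod_cast this
  have h2 : (1 : ℝ) ≤ ((max (t + 1) t0 : ℕ) : ℝ) := by
    have : 1 ≤ max (t + 1) t0 := le_trans (by omega) (le_max_left _ _)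
    exact_mod_cast this
  calc D * b ≤ t := ht
    _ ≤ ((max (t + 1) t0 : ℕ) : ℝ) := h1
    _ ≤ ((max (t + 1) t0 : ℕ) : ℝ) ^ (2 * (s + 1)) := le_self_pow₀ h2 (by omega)

/-- **Main theorem.** For every `s` and every fixed `a ≥ s + 2`, the generalized Ohba number
`τ_s(a, b)` (an actual minimum for all `b ≥ a`) is `Θ(b ^ (1 / (2 s + 2)))` as `b → ∞`. -/
theorem result : ∀ s a : ℕ, s + 2 ≤ a →
    (∀ b, a ≤ b → (ohbaSet s a b).Nonempty) ∧
    (fun b : ℕ => (tau s a b : ℝ)) =Θ[atTop]
      (fun b : ℕ => (b : ℝ) ^ ((1 : ℝ) / (2 * s + 2))) := by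
  intro s a ha
  refine ⟨fun b hb => ohbaSet_nonempty s a b (by omega) (by omega), ?_⟩
  have hpow : ∀ x : ℝ, 0 ≤ x → (x ^ ((1 : ℝ) / (2 * s + 2))) ^ (2 * (s + 1)) = x := by
    intro x hx
    rw [← Real.rpow_natCast, ← Real.rpow_mul hx]
    have : (1 : ℝ) / (2 * s + 2) * ((2 * (s + 1) : ℕ) : ℝ) = 1 := by
      push_cast
      field_simp
    rw [this, Real.rpow_one]
  have htend : Tendsto (fun b : ℕ => (b : ℝ) ^ ((1 : ℝ) / (2 * s + 2))) atTop atTop :=
    (tendsto_rpow_atTop (by positivity)).comp tendsto_natCast_atTop_atTop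
  constructor
  · -- upper bound
    obtain ⟨D, t0, hD, h⟩ := choosable_upper s a (by omega)
    apply IsBigO.of_bound (2 * D + 1)
    filter_upwards [htend.eventually_ge_atTop ((t0 : ℝ) + 1), eventually_ge_atTop 1] with b hb hb1
    set r : ℝ := (b : ℝ) ^ ((1 : ℝ) / (2 * s + 2)) with hr
    have hr1 : 1 ≤ r := by
      have : (0 : ℝ) ≤ t0 := by positivity
      linarith
    have hrp : r ^ (2 * (s + 1)) = b := hpow b (by positivity)
    set t := ⌈D * r⌉₊ with ht
    have ht1 : D * r ≤ t := Nat.le_ceil _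
    have ht2 : (t : ℝ) < D * r + 1 := Nat.ceil_lt_add_one (by positivity)
    have ht0 : t0 ≤ t := by
      have : (t0 : ℝ) ≤ t := by nlinarith
      exact_mod_cast this
    have hbt : D * b ≤ (t : ℝ) ^ (2 * (s + 1)) := by
      calc D * b ≤ D ^ (2 * (s + 1)) * b := by
            apply mul_le_mul_of_nonneg_right _ (by positivity)
            exact le_self_pow₀ hD (by omega)
        _ = (D * r) ^ (2 * (s + 1)) := by rw [mul_pow, hrp]
        _ ≤ _ := pow_le_pow_left₀ (by positivity) ht1 _
    have hτ : tau s a b ≤ t :=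
      Nat.sInf_le ((mem_ohbaSet s a b t (by omega) hb1).2 (h t b ht0 hbt))
    have hτr : (tau s a b : ℝ) ≤ t := by exact_mod_cast hτ
    rw [Real.norm_of_nonneg (by positivity), Real.norm_of_nonneg (by positivity)]
    nlinarith
  · -- lower bound
    apply IsBigO.of_bound 2
    filter_upwards [htend.eventually_ge_atTop (2 * ((s : ℝ) + 2)), eventually_ge_atTop 1] with
      b hb hb1
    set r : ℝ := (b : ℝ) ^ ((1 : ℝ) / (2 * s + 2)) with hr
    have hrp : r ^ (2 * (s + 1)) = b := hpow b (by positivity)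
    have hmem : tau s a b ∈ ohbaSet s a b :=
      Nat.sInf_mem (ohbaSet_nonempty s a b (by omega) hb1)
    rw [mem_ohbaSet s a b _ (by omega) hb1] at hmem
    have hlt : b < (tau s a b + s + 2) ^ (2 * (s + 1)) := by
      by_contra hcon
      push Not at hcon
      exact not_choosable_lower s a b (tau s a b) ha hcon hmem
    have hltr : r ^ (2 * (s + 1)) < ((tau s a b : ℝ) + s + 2) ^ (2 * (s + 1)) := by
      rw [hrp]
      exact_mod_cast hlt
    have hlt' : r < (tau s a b : ℝ) + s + 2 := lt_of_pow_lt_pow_left₀ _ (by positivity) hltr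
    rw [Real.norm_of_nonneg (by positivity), Real.norm_of_nonneg (by positivity)]
    linarith

end Pool.Agent.Results.MP_abf9c7_co.Theta
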